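import Mathlib

/-!
# A cubic form in twelve variables without lines, over fields with a discrete valuation

The proof is uniform in the valuation `e` of the parameter `c`; only `3 ∤ e` is used.
-/

set_option autoImplicit false

namespace Pool.Agent.Y505.RL

/-- a discrete valuation, given by its values on the nonzero elements -/
structure DV (K : Type) [Field K] where
  v : K → ℤ
  mul : ∀ x y, x ≠ 0 → y ≠ 0 → v (x * y) = v x + v y
  add : ∀ x y, x ≠ 0 → y ≠ 0 → x + y ≠ 0 → min (v x) (v y) ≤ v (x + y)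

variable {K : Type} [Field K] (d : DV K)

/-- `v x ≥ a / 3` -/
def DV.g (a : ℤ) (x : K) : Prop := x ≠ 0 → a ≤ 3 * d.v x

lemma DV.v_one : d.v 1 = 0 := by
  have h := d.mul 1 1 one_ne_zero one_ne_zero
  rw [mul_one] at h
  omega

lemma DV.v_neg_one : d.v (-1) = 0 := by
  have h := d.mul (-1) (-1) (neg_ne_zero.2 one_ne_zero) (neg_ne_zero.2 one_ne_zero)
  rw [neg_mul_neg, mul_one, d.v_one] at h
  omega

lemma DV.v_neg (x : K) (hx : x ≠ 0) : d.v (-x) = d.v x := by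
  have h := d.mul (-1) x (neg_ne_zero.2 one_ne_zero) hx
  rw [neg_one_mul, d.v_neg_one] at h
  omega

lemma DV.v_inv (x : K) (hx : x ≠ 0) : d.v x⁻¹ = - d.v x := by
  have h := d.mul x x⁻¹ hx (inv_ne_zero hx)
  rw [mul_inv_cancel₀ hx, d.v_one] at h
  omega

lemma DV.v_pow (x : K) (hx : x ≠ 0) (n : ℕ) : d.v (x ^ n) = n * d.v x := by
  induction n with
  | zero => simp [d.v_one]
  | succ n ih =>
    rw [pow_succ, d.mul _ _ (pow_ne_zero _ hx) hx, ih]
    push_cast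
    ring

lemma DV.v_zpow (x : K) (hx : x ≠ 0) (n : ℤ) : d.v (x ^ n) = n * d.v x := by
  rcases n with n | n
  · simpa using d.v_pow x hx n
  · rw [zpow_negSucc, d.v_inv _ (pow_ne_zero _ hx), d.v_pow x hx, Int.negSucc_eq]
    push_cast
    ring

lemma DV.g_zero (a : ℤ) : d.g a 0 := fun h => absurd rfl h

lemma DV.g_mono {a b : ℤ} (h : b ≤ a) {x : K} (hx : d.g a x) : d.g b x := fun h0 => h.trans (hx h0)

lemma DV.g_add {a : ℤ} {x y : K} (hx : d.g a x) (hy : d.g a y) : d.g a (x + y) := by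
  intro h
  by_cases h1 : x = 0
  · rw [h1, zero_add] at h ⊢; exact hy h
  by_cases h2 : y = 0
  · rw [h2, add_zero] at h ⊢; exact hx h
  have h3 := d.add x y h1 h2 h
  have h4 := hx h1
  have h5 := hy h2
  omega

lemma DV.g_neg {a : ℤ} {x : K} (hx : d.g a x) : d.g a (-x) := by
  intro h
  have h1 : x ≠ 0 := neg_ne_zero.1 h
  rw [d.v_neg x h1]
  exact hx h1

lemma DV.g_sub {a : ℤ} {x y : K} (hx : d.g a x) (hy : d.g a y) : d.g a (x - y) := by
  rw [sub_eq_add_neg]; exact d.g_add hx (d.g_neg hy)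

lemma DV.g_mul {a b : ℤ} {x y : K} (hx : d.g a x) (hy : d.g b y) : d.g (a + b) (x * y) := by
  intro h
  have h1 : x ≠ 0 := left_ne_zero_of_mul h
  have h2 : y ≠ 0 := right_ne_zero_of_mul h
  rw [d.mul x y h1 h2]
  have h4 := hx h1
  have h5 := hy h2
  omega

lemma DV.g_one : d.g 0 1 := fun _ => by rw [d.v_one]; norm_num

lemma DV.g_nat (n : ℕ) : d.g 0 (n : K) := by
  induction n with
  | zero => rw [Nat.cast_zero]; exact d.g_zero 0
  | succ n ih => rw [Nat.cast_succ]; exact d.g_add ih d.g_one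

lemma DV.g_nmul (n : ℕ) {a : ℤ} {x : K} (hx : d.g a x) : d.g a ((n : K) * x) := by
  have := d.g_mul (d.g_nat n) hx
  rwa [zero_add] at this

lemma DV.g_mul3 {a b c : ℤ} {x y z : K} (hx : d.g a x) (hy : d.g b y) (hz : d.g c z) :
    d.g (a + b + c) (x * y * z) := d.g_mul (d.g_mul hx hy) hz

/-- the norm form of `ℤ[T] / (T³ - T - 1)` -/
def N {R : Type} [CommRing R] (x : Fin 3 → R) : R :=
  x 0 ^ 3 + x 1 ^ 3 + x 2 ^ 3 + 2 * x 0 ^ 2 * x 2 + x 0 * x 2 ^ 2 - x 0 * x 1 ^ 2 - x 1 * x 2 ^ 2 -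
    3 * x 0 * x 1 * x 2

/-- the polarisation of `N` -/
def N1 {R : Type} [CommRing R] (x y : Fin 3 → R) : R :=
  y 0 * (3 * x 0 ^ 2 + 4 * x 0 * x 2 + x 2 ^ 2 - x 1 ^ 2 - 3 * x 1 * x 2) +
  y 1 * (3 * x 1 ^ 2 - 2 * x 0 * x 1 - x 2 ^ 2 - 3 * x 0 * x 2) +
  y 2 * (3 * x 2 ^ 2 + 2 * x 0 ^ 2 + 2 * x 0 * x 2 - 2 * x 1 * x 2 - 3 * x 0 * x 1)

lemma N_line {R : Type} [CommRing R] (x y : Fin 3 → R) (s t : R) :
    N (fun j => s * x j + t * y j) = s ^ 3 * N x + s ^ 2 * t * N1 x y + s * t ^ 2 * N1 y x +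
      t ^ 3 * N y := by
  unfold N N1
  ring

lemma N_smul {R : Type} [CommRing R] (x : Fin 3 → R) (s : R) :
    N (fun j => s * x j) = s ^ 3 * N x := by
  unfold N
  ring

lemma N1_est {a b : ℤ} {x y : Fin 3 → K} (hx : ∀ j, d.g a (x j)) (hy : ∀ j, d.g b (y j)) :
    d.g (2 * a + b) (N1 x y) := by
  have m : ∀ i j k : Fin 3, d.g (2 * a + b) (y i * (x j * x k)) := by
    intro i j k
    have := d.g_mul (hy i) (d.g_mul (hx j) (hx k))
    exact d.g_mono (by omega) this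
  have n : ∀ (c : ℕ) (i j k : Fin 3), d.g (2 * a + b) ((c : K) * (y i * (x j * x k))) :=
    fun c i j k => d.g_nmul c (m i j k)
  have e : N1 x y =
      (((3 : ℕ) : K) * (y 0 * (x 0 * x 0)) + ((4 : ℕ) : K) * (y 0 * (x 0 * x 2)) +
        y 0 * (x 2 * x 2) - y 0 * (x 1 * x 1) - ((3 : ℕ) : K) * (y 0 * (x 1 * x 2))) +
      (((3 : ℕ) : K) * (y 1 * (x 1 * x 1)) - ((2 : ℕ) : K) * (y 1 * (x 0 * x 1)) -
        y 1 * (x 2 * x 2) - ((3 : ℕ) : K) * (y 1 * (x 0 * x 2))) +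
      (((3 : ℕ) : K) * (y 2 * (x 2 * x 2)) + ((2 : ℕ) : K) * (y 2 * (x 0 * x 0)) +
        ((2 : ℕ) : K) * (y 2 * (x 0 * x 2)) - ((2 : ℕ) : K) * (y 2 * (x 1 * x 2)) -
        ((3 : ℕ) : K) * (y 2 * (x 0 * x 1))) := by
    unfold N1
    push_cast
    ring
  rw [e]
  exact d.g_add (d.g_add
    (d.g_sub (d.g_sub (d.g_add (d.g_add (n _ _ _ _) (n _ _ _ _)) (m _ _ _)) (m _ _ _)) (n _ _ _ _))
    (d.g_sub (d.g_sub (d.g_sub (n _ _ _ _) (n _ _ _ _)) (m _ _ _)) (n _ _ _ _)))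
    (d.g_sub (d.g_sub (d.g_add (d.g_add (n _ _ _ _) (n _ _ _ _)) (n _ _ _ _)) (n _ _ _ _))
      (n _ _ _ _))

lemma N_est {a : ℤ} {x : Fin 3 → K} (hx : ∀ j, d.g a (x j)) : d.g (3 * a) (N x) := by
  have m : ∀ i j k : Fin 3, d.g (3 * a) (x i * (x j * x k)) := by
    intro i j k
    have := d.g_mul (hx i) (d.g_mul (hx j) (hx k))
    exact d.g_mono (by omega) this
  have n : ∀ (c : ℕ) (i j k : Fin 3), d.g (3 * a) ((c : K) * (x i * (x j * x k))) :=
    fun c i j k => d.g_nmul c (m i j k)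
  have e : N x = x 0 * (x 0 * x 0) + x 1 * (x 1 * x 1) + x 2 * (x 2 * x 2) +
      ((2 : ℕ) : K) * (x 0 * (x 0 * x 2)) + x 0 * (x 2 * x 2) - x 0 * (x 1 * x 1) -
      x 1 * (x 2 * x 2) - ((3 : ℕ) : K) * (x 0 * (x 1 * x 2)) := by
    unfold N
    push_cast
    ring
  rw [e]
  exact d.g_sub (d.g_sub (d.g_sub (d.g_add (d.g_add (d.g_add (d.g_add (m _ _ _) (m _ _ _))
    (m _ _ _)) (n _ _ _ _)) (m _ _ _)) (m _ _ _)) (m _ _ _)) (n _ _ _ _)

/-- anisotropy of `N` modulo the maximal ideal -/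
def Aniso : Prop := ∀ x : Fin 3 → K, (∀ j, d.g 0 (x j)) → d.g 1 (N x) → ∀ j, d.g 1 (x j)

/-- the value of `N` at a nonzero vector -/
lemma N_aniso (h : Aniso d) (x : Fin 3 → K) (hx : ∃ j, x j ≠ 0) :
    N x ≠ 0 ∧ 3 ∣ d.v (N x) ∧ ∀ j, d.g (d.v (N x)) (x j) := by
  classical
  obtain ⟨j0, hj0, hmin⟩ := Finset.exists_min_image (Finset.univ.filter fun j => x j ≠ 0)
    (fun j => d.v (x j)) (by
      obtain ⟨j, hj⟩ := hx
      exact ⟨j, by simp [hj]⟩)
  have hj0' : x j0 ≠ 0 := (Finset.mem_filter.1 hj0).2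
  have hmin' : ∀ j, x j ≠ 0 → d.v (x j0) ≤ d.v (x j) := fun j hj =>
    hmin j (Finset.mem_filter.2 ⟨Finset.mem_univ _, hj⟩)
  set n := d.v (x j0) with hn
  set c : K := (x j0)⁻¹ with hc
  have hc0 : c ≠ 0 := inv_ne_zero hj0'
  have hcv : d.v c = - n := d.v_inv _ hj0'
  have h1 : ∀ j, d.g 0 (c * x j) := by
    intro j hj
    have h2 : x j ≠ 0 := right_ne_zero_of_mul hj
    rw [d.mul _ _ hc0 h2, hcv]
    have := hmin' j h2
    omega
  have h2 : ¬ d.g 1 (N fun j => c * x j) := by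
    intro hcon
    have h3 := h _ h1 hcon j0
    have h4 : c * x j0 = 1 := inv_mul_cancel₀ hj0'
    simp only [h4] at h3
    have h5 := h3 one_ne_zero
    rw [d.v_one] at h5
    omega
  rw [N_smul] at h2
  have h3 : c ^ 3 * N x ≠ 0 ∧ 3 * d.v (c ^ 3 * N x) < 1 := by
    unfold DV.g at h2
    push Not at h2
    exact h2
  have h4 : N x ≠ 0 := right_ne_zero_of_mul h3.1
  have h5 := h3.2
  rw [d.mul _ _ (pow_ne_zero _ hc0) h4, d.v_pow _ hc0, hcv] at h5
  have h6 := N_est d (a := 3 * n) (x := x) (fun j hj => by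
    have := hmin' j hj
    omega) h4
  push_cast at h5
  have h7 : d.v (N x) = 3 * n := by omega
  refine ⟨h4, ⟨n, h7⟩, ?_⟩
  intro j hj
  rw [h7]
  have := hmin' j hj
  omega

/-- sum of two elements with different values -/
lemma two_sum {x y : K} (hxy : x ≠ 0 → y ≠ 0 → d.v x ≠ d.v y) :
    (x + y = 0 → x = 0 ∧ y = 0) ∧ (x + y ≠ 0 → (x ≠ 0 → d.v (x + y) ≤ d.v x) ∧
      (y ≠ 0 → d.v (x + y) ≤ d.v y) ∧ ((x ≠ 0 ∧ d.v (x + y) = d.v x) ∨
        (y ≠ 0 ∧ d.v (x + y) = d.v y))) := by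
  by_cases hx : x = 0
  · subst hx
    simp only [zero_add]
    exact ⟨fun h => ⟨trivial, h⟩, fun h => ⟨fun h' => absurd rfl h', fun _ => le_rfl,
      Or.inr ⟨h, trivial⟩⟩⟩
  by_cases hy : y = 0
  · subst hy
    simp only [add_zero]
    exact ⟨fun h => ⟨h, trivial⟩, fun h => ⟨fun _ => le_rfl, fun h' => absurd rfl h',
      Or.inl ⟨h, trivial⟩⟩⟩
  have hne := hxy hx hy
  have h0 : x + y ≠ 0 := by
    intro h0
    apply hne
    rw [eq_neg_of_add_eq_zero_left h0, d.v_neg y hy]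
  refine ⟨fun h => absurd h h0, fun _ => ?_⟩
  have h1 := d.add x y hx hy h0
  have h2 := d.add (x + y) (-y) h0 (neg_ne_zero.2 hy) (by simpa using hx)
  have h3 := d.add (x + y) (-x) h0 (neg_ne_zero.2 hx) (by simpa using hy)
  rw [add_neg_cancel_right, d.v_neg y hy] at h2
  have e : x + y + -x = y := by ring
  rw [e, d.v_neg x hx] at h3
  refine ⟨fun _ => by omega, fun _ => by omega, ?_⟩
  rcases lt_or_gt_of_ne hne with h | h
  · left
    exact ⟨hx, by omega⟩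
  · right
    exact ⟨hy, by omega⟩

/-- the nine variable part -/
def M {R : Type} [CommRing R] (c : R) (P : Fin 3 → Fin 3 → R) : R :=
  N (P 0) + c * N (P 1) + c ^ 2 * N (P 2)

/-- its polarisation -/
def M1 {R : Type} [CommRing R] (c : R) (P Q : Fin 3 → Fin 3 → R) : R :=
  N1 (P 0) (Q 0) + c * N1 (P 1) (Q 1) + c ^ 2 * N1 (P 2) (Q 2)

lemma M_line {R : Type} [CommRing R] (c : R) (P Q : Fin 3 → Fin 3 → R) (s t : R) :
    M c (fun i j => s * P i j + t * Q i j) = s ^ 3 * M c P + s ^ 2 * t * M1 c P Q +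
      s * t ^ 2 * M1 c Q P + t ^ 3 * M c Q := by
  unfold M M1
  rw [N_line (P 0) (Q 0), N_line (P 1) (Q 1), N_line (P 2) (Q 2)]
  ring

/-- `P` has norm at least `a / 3` -/
def Bd (c : K) (a : ℤ) (P : Fin 3 → Fin 3 → K) : Prop :=
  (∀ j, d.g a (P 0 j)) ∧ (∀ j, d.g (a - d.v c) (P 1 j)) ∧ (∀ j, d.g (a - 2 * d.v c) (P 2 j))

lemma Bd_zero (c : K) (a : ℤ) {P : Fin 3 → Fin 3 → K} (hP : ∀ i j, P i j = 0) : Bd d c a P :=
  ⟨fun j => by rw [hP]; exact d.g_zero _, fun j => by rw [hP]; exact d.g_zero _,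
    fun j => by rw [hP]; exact d.g_zero _⟩

lemma M_est {c : K} (hc : c ≠ 0) {a : ℤ} {P : Fin 3 → Fin 3 → K} (h : Bd d c a P) :
    d.g (3 * a) (M c P) := by
  have hcg : d.g (3 * d.v c) c := fun _ => le_rfl
  have hcg2 : d.g (3 * (2 * d.v c)) (c ^ 2) := fun _ => by
    rw [d.v_pow c hc]; push_cast; omega
  have h0 := N_est d h.1
  have h1 := d.g_mul hcg (N_est d h.2.1)
  have h2 := d.g_mul hcg2 (N_est d h.2.2)
  exact d.g_add (d.g_add h0 (d.g_mono (by omega) h1)) (d.g_mono (by omega) h2)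

lemma M1_est {c : K} (hc : c ≠ 0) {a b : ℤ} {P Q : Fin 3 → Fin 3 → K} (hP : Bd d c a P)
    (hQ : Bd d c b Q) : d.g (2 * a + b) (M1 c P Q) := by
  have hcg : d.g (3 * d.v c) c := fun _ => le_rfl
  have hcg2 : d.g (3 * (2 * d.v c)) (c ^ 2) := fun _ => by
    rw [d.v_pow c hc]; push_cast; omega
  have h0 := N1_est d hP.1 hQ.1
  have h1 := d.g_mul hcg (N1_est d hP.2.1 hQ.2.1)
  have h2 := d.g_mul hcg2 (N1_est d hP.2.2 hQ.2.2)
  exact d.g_add (d.g_add h0 (d.g_mono (by omega) h1)) (d.g_mono (by omega) h2)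

/-- anisotropy of the nine variable form, with the value -/
lemma M_aniso (h : Aniso d) {c : K} (hc : c ≠ 0) (he : ¬ (3 : ℤ) ∣ d.v c)
    (P : Fin 3 → Fin 3 → K) :
    (M c P = 0 → ∀ i j, P i j = 0) ∧ (M c P ≠ 0 → Bd d c (d.v (M c P)) P) := by
  have key : ∀ x : Fin 3 → K, (N x = 0 → ∀ j, x j = 0) ∧ (N x ≠ 0 → 3 ∣ d.v (N x) ∧
      ∀ j, d.g (d.v (N x)) (x j)) := by
    intro x
    constructor
    · intro h0
      by_contra hcon
      push Not at hcon
      exact (N_aniso d h x hcon).1 h0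
    · intro h0
      have hx : ∃ j, x j ≠ 0 := by
        by_contra hcon
        push Not at hcon
        apply h0
        unfold N
        rw [hcon 0, hcon 1, hcon 2]
        ring
      exact (N_aniso d h x hx).2
  obtain ⟨k0, l0⟩ := key (P 0)
  obtain ⟨k1, l1⟩ := key (P 1)
  obtain ⟨k2, l2⟩ := key (P 2)
  have hc2 : c ^ 2 ≠ 0 := pow_ne_zero _ hc
  have v1 : N (P 1) ≠ 0 → d.v (c * N (P 1)) = d.v c + d.v (N (P 1)) := fun h => d.mul _ _ hc h
  have v2 : N (P 2) ≠ 0 → d.v (c ^ 2 * N (P 2)) = 2 * d.v c + d.v (N (P 2)) := fun h => by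
    rw [d.mul _ _ hc2 h, d.v_pow c hc]; push_cast; ring
  have s1 := two_sum d (x := N (P 0)) (y := c * N (P 1)) (by
    intro a b
    have b' := right_ne_zero_of_mul b
    rw [v1 b']
    have := (l0 a).1
    have := (l1 b').1
    omega)
  have s2 := two_sum d (x := N (P 0) + c * N (P 1)) (y := c ^ 2 * N (P 2)) (by
    intro a b
    have b' := right_ne_zero_of_mul b
    rw [v2 b']
    have h2 := (l2 b').1
    rcases (s1.2 a).2.2 with ⟨a1, a2⟩ | ⟨a1, a2⟩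
    · have := (l0 a1).1
      omega
    · have a1' := right_ne_zero_of_mul a1
      have := (l1 a1').1
      rw [v1 a1'] at a2
      omega)
  constructor
  · intro h0
    obtain ⟨a, b⟩ := s2.1 h0
    obtain ⟨a1, a2⟩ := s1.1 a
    have b' := (mul_eq_zero.1 b).resolve_left hc2
    have a2' := (mul_eq_zero.1 a2).resolve_left hc
    intro i
    fin_cases i
    · exact k0 a1
    · exact k1 a2'
    · exact k2 b'
  · intro h0
    obtain ⟨t1, t2, -⟩ := s2.2 h0
    have hM : d.v (M c P) = d.v (N (P 0) + c * N (P 1) + c ^ 2 * N (P 2)) := rfl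
    refine ⟨fun j => ?_, fun j => ?_, fun j => ?_⟩
    · by_cases hz : N (P 0) = 0
      · rw [k0 hz]; exact d.g_zero _
      · refine d.g_mono ?_ ((l0 hz).2 j)
        by_cases hs : N (P 0) + c * N (P 1) = 0
        · exact absurd (s1.1 hs).1 hz
        · have e1 := t1 hs
          have e2 := (s1.2 hs).1 hz
          omega
    · by_cases hz : N (P 1) = 0
      · rw [k1 hz]; exact d.g_zero _
      · refine d.g_mono ?_ ((l1 hz).2 j)
        have hz' : c * N (P 1) ≠ 0 := mul_ne_zero hc hz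
        by_cases hs : N (P 0) + c * N (P 1) = 0
        · exact absurd (s1.1 hs).2 hz'
        · have e1 := t1 hs
          have e2 := (s1.2 hs).2.1 hz'
          rw [v1 hz] at e2
          omega
    · by_cases hz : N (P 2) = 0
      · rw [k2 hz]; exact d.g_zero _
      · refine d.g_mono ?_ ((l2 hz).2 j)
        have e1 := t2 (mul_ne_zero hc2 hz)
        rw [v2 hz] at e1
        omega

end Pool.Agent.Y505.RL
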