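import Pool.Agent.Y505.RL.Core

/-!
# The cubic norm form over finite fields of characteristic two
-/

set_option autoImplicit false

namespace Pool.Agent.Y505.RL

open Polynomial

/-- in a field with `2 ^ f` elements, `3 ∤ f`, the equation `θ³ = θ + 1` has no solution -/
lemma no_root {k : Type} [Field k] [Finite k] (h2 : (2 : k) = 0) {f : ℕ}
    (hf : Nat.card k = 2 ^ f) (h3 : ¬ 3 ∣ f) (θ : k) : θ ^ 3 ≠ θ + 1 := by
  intro hθ
  have h7 : θ ^ 7 = 1 := by
    have e : θ ^ 7 - 1 = (θ ^ 3 - (θ + 1)) * (θ ^ 4 + θ ^ 2 + θ + 1) + 2 * (θ ^ 2 + θ) := by ring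
    have h := e
    rw [hθ, sub_self, zero_mul, h2, zero_mul, add_zero] at h
    exact sub_eq_zero.1 h
  have h1 : θ ≠ 1 := by
    intro h
    rw [h] at hθ
    have : (1 : k) = 2 := by rw [← one_add_one_eq_two, ← hθ]; ring
    rw [h2] at this
    exact one_ne_zero this
  have h0 : θ ≠ 0 := by
    intro h
    rw [h] at hθ
    norm_num at hθ
  have hord : orderOf (Units.mk0 θ h0) = 7 := by
    haveI : Fact (Nat.Prime 7) := ⟨by norm_num⟩
    apply orderOf_eq_prime
    · ext
      simpa using h7
    · intro h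
      apply h1
      have := congrArg Units.val h
      simpa using this
  have hdvd : 7 ∣ 2 ^ f - 1 := by
    rw [← hf, ← Nat.card_units, ← hord]
    exact orderOf_dvd_natCard _
  have hmod : 2 ^ f % 7 = 1 := by
    have : 1 ≤ 2 ^ f := Nat.one_le_two_pow
    omega
  apply h3
  have e : f = 3 * (f / 3) + f % 3 := by omega
  have hlt : f % 3 < 3 := Nat.mod_lt _ (by norm_num)
  rw [e, pow_add, pow_mul, Nat.mul_mod, Nat.pow_mod] at hmod
  norm_num at hmod
  interval_cases hh : f % 3
  · omega
  · norm_num at hmod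
  · norm_num at hmod

/-- anisotropy of `N` over a field in which `T³ - T - 1` has no root -/
lemma aniso_field {k : Type} [Field k] (hk : ∀ θ : k, θ ^ 3 ≠ θ + 1) (x : Fin 3 → k)
    (hx : N x = 0) : ∀ j, x j = 0 := by
  let Mx : Matrix (Fin 3) (Fin 3) k :=
    !![x 0, x 2, x 1; x 1, x 0 + x 2, x 1 + x 2; x 2, x 1, x 0 + x 2]
  have hdet : Mx.det = 0 := by
    rw [← hx, Matrix.det_fin_three]
    simp [Mx, N]
    ring
  obtain ⟨c, hc0, hc⟩ := Matrix.exists_mulVec_eq_zero_iff.2 hdet
  have r0 : x 0 * c 0 + x 2 * c 1 + x 1 * c 2 = 0 := by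
    have := congrFun hc 0
    simpa [Mx, Matrix.mulVec, dotProduct, Fin.sum_univ_three] using this
  have r1 : x 1 * c 0 + (x 0 + x 2) * c 1 + (x 1 + x 2) * c 2 = 0 := by
    have := congrFun hc 1
    simpa [Mx, Matrix.mulVec, dotProduct, Fin.sum_univ_three] using this
  have r2 : x 2 * c 0 + x 1 * c 1 + (x 0 + x 2) * c 2 = 0 := by
    have := congrFun hc 2
    simpa [Mx, Matrix.mulVec, dotProduct, Fin.sum_univ_three] using this
  let g : k[X] := X ^ 3 - X - 1
  have hg : g = X ^ 3 - X - 1 := rfl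
  have hgm : g.Monic := by
    rw [hg]
    monicity!
  have hgd : g.natDegree = 3 := by
    rw [hg]
    compute_degree!
  have hirr : Irreducible g := by
    rw [hgm.irreducible_iff_roots_eq_zero_of_degree_le_three (by omega) (by omega)]
    rw [Multiset.eq_zero_iff_forall_notMem]
    intro θ hθ
    rw [mem_roots hgm.ne_zero, IsRoot.def, hg] at hθ
    simp only [eval_sub, eval_pow, eval_X, eval_one] at hθ
    exact hk θ (by linear_combination hθ)
  let q : (Fin 3 → k) → k[X] := fun y => C (y 0) + C (y 1) * X + C (y 2) * X ^ 2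
  have hprod : g ∣ q x * q c := by
    refine ⟨C (x 2 * c 2) * X + C (x 1 * c 2 + x 2 * c 1), ?_⟩
    have e : q x * q c - g * (C (x 2 * c 2) * X + C (x 1 * c 2 + x 2 * c 1)) =
        C (x 0 * c 0 + x 2 * c 1 + x 1 * c 2) +
        C (x 1 * c 0 + (x 0 + x 2) * c 1 + (x 1 + x 2) * c 2) * X +
        C (x 2 * c 0 + x 1 * c 1 + (x 0 + x 2) * c 2) * X ^ 2 := by
      simp only [q, hg, map_add, map_mul]
      ring
    rw [r0, r1, r2, map_zero, zero_mul, zero_mul, add_zero, add_zero] at e
    exact sub_eq_zero.1 e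
  have hq : ∀ y : Fin 3 → k, g ∣ q y → ∀ j, y j = 0 := by
    intro y hy
    have hdeg : (q y).natDegree < 3 := by
      have : (q y).natDegree ≤ 2 := by
        simp only [q]
        compute_degree
      omega
    have hz : q y = 0 := by
      by_contra hne
      have := natDegree_le_of_dvd hy hne
      omega
    have c0 := congrArg (fun p => coeff p 0) hz
    have c1 := congrArg (fun p => coeff p 1) hz
    have c2 := congrArg (fun p => coeff p 2) hz
    simp [q, coeff_X, coeff_C] at c0 c1 c2
    intro j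
    fin_cases j
    · exact c0
    · exact c1
    · exact c2
  rcases hirr.prime.dvd_or_dvd hprod with h | h
  · exact hq x h
  · exact absurd (funext (hq c h)) hc0

end Pool.Agent.Y505.RL
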