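import Pool.Agent.Y505.RL.Line
import Pool.Agent.Y505.RL.Fld

/-!
# Number fields of degree prime to three
-/

set_option autoImplicit false

namespace Pool.Agent.Y505.RL

open IsDedekindDomain WithZero

variable {K : Type} [Field K] [NumberField K]

/-- the additive valuation of a prime of a number field -/
noncomputable def ofPrime (P : HeightOneSpectrum (NumberField.RingOfIntegers K)) : DV K where
  v x := - log (P.valuation K x)
  mul x y hx hy := by
    rw [map_mul, log_mul ((Valuation.ne_zero_iff _).2 hx) ((Valuation.ne_zero_iff _).2 hy)]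
    ring
  add x y hx hy hxy := by
    have h := (P.valuation K).map_add x y
    have hx' := (Valuation.ne_zero_iff (P.valuation K)).2 hx
    have hy' := (Valuation.ne_zero_iff (P.valuation K)).2 hy
    have hxy' := (Valuation.ne_zero_iff (P.valuation K)).2 hxy
    rcases le_max_iff.1 h with h1 | h1
    · have := (log_le_log hxy' hx').2 h1
      omega
    · have := (log_le_log hxy' hy').2 h1
      omega

lemma ofPrime_nonneg (P : HeightOneSpectrum (NumberField.RingOfIntegers K)) (x : K) (hx : x ≠ 0) :
    0 ≤ (ofPrime P).v x ↔ P.valuation K x ≤ 1 := by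
  have hx' := (Valuation.ne_zero_iff (P.valuation K)).2 hx
  have h := log_le_log hx' (one_ne_zero (α := ℤᵐ⁰))
  rw [log_one] at h
  rw [← h]
  show 0 ≤ - log (P.valuation K x) ↔ _
  omega

lemma ofPrime_pos (P : HeightOneSpectrum (NumberField.RingOfIntegers K)) (x : K) (hx : x ≠ 0) :
    0 < (ofPrime P).v x ↔ P.valuation K x < 1 := by
  have hx' := (Valuation.ne_zero_iff (P.valuation K)).2 hx
  have h := log_lt_log hx' (one_ne_zero (α := ℤᵐ⁰))
  rw [log_one] at h
  rw [← h]
  show 0 < - log (P.valuation K x) ↔ _
  omega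

lemma g_zero_iff (P : HeightOneSpectrum (NumberField.RingOfIntegers K)) (x : K) :
    (ofPrime P).g 0 x ↔ P.valuation K x ≤ 1 := by
  by_cases hx : x = 0
  · subst hx
    simp [DV.g]
  · rw [← ofPrime_nonneg P x hx]
    unfold DV.g
    constructor
    · intro h
      have := h hx
      omega
    · intro h _
      omega

lemma g_one_iff (P : HeightOneSpectrum (NumberField.RingOfIntegers K)) (x : K) :
    (ofPrime P).g 1 x ↔ P.valuation K x < 1 := by
  by_cases hx : x = 0
  · subst hx
    simp [DV.g]
  · rw [← ofPrime_pos P x hx]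
    unfold DV.g
    constructor
    · intro h
      have := h hx
      omega
    · intro h _
      omega

lemma N_map {R S : Type} [CommRing R] [CommRing S] (φ : R →+* S) (x : Fin 3 → R) :
    φ (N x) = N fun j => φ (x j) := by
  unfold N
  simp only [map_add, map_sub, map_mul, map_pow, map_ofNat]

/-- anisotropy at a prime whose residue field has no root of `T³ - T - 1` -/
lemma aniso_ofPrime (P : HeightOneSpectrum (NumberField.RingOfIntegers K))
    (hP : ∀ θ : NumberField.RingOfIntegers K ⧸ P.asIdeal, θ ^ 3 ≠ θ + 1) : Aniso (ofPrime P) := by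
  haveI : P.asIdeal.IsMaximal := P.isMaximal
  letI : Field (NumberField.RingOfIntegers K ⧸ P.asIdeal) := Ideal.Quotient.field _
  intro x hx hN j
  have h1 : ∀ j, ∃ (n : NumberField.RingOfIntegers K) (d : P.asIdeal.primeCompl),
      x j * (algebraMap (NumberField.RingOfIntegers K) K d) = algebraMap (NumberField.RingOfIntegers K) K n := fun j =>
    P.exists_primeCompl_mul_eq_of_integer (x j) ((g_zero_iff P (x j)).1 (hx j))
  choose n d hnd using h1
  have hvd : ∀ a : P.asIdeal.primeCompl, P.valuation K (algebraMap (NumberField.RingOfIntegers K) K a) = 1 := by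
    intro a
    rw [HeightOneSpectrum.valuation_of_algebraMap,
      HeightOneSpectrum.intValuation_eq_one_iff_mem_primeCompl]
    exact a.2
  set s : P.asIdeal.primeCompl := d 0 * d 1 * d 2 with hs
  have h2 : ∀ j, ∃ a : NumberField.RingOfIntegers K, algebraMap (NumberField.RingOfIntegers K) K s * x j = algebraMap (NumberField.RingOfIntegers K) K a := by
    intro j
    fin_cases j
    · refine ⟨n 0 * d 1 * d 2, ?_⟩
      have := hnd 0
      simp only [hs, Submonoid.coe_mul, map_mul]
      simp only [Fin.zero_eta]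
      linear_combination (algebraMap (NumberField.RingOfIntegers K) K (d 1) * algebraMap (NumberField.RingOfIntegers K) K (d 2)) * this
    · refine ⟨n 1 * d 0 * d 2, ?_⟩
      have := hnd 1
      simp only [hs, Submonoid.coe_mul, map_mul]
      simp only [Fin.mk_one]
      linear_combination (algebraMap (NumberField.RingOfIntegers K) K (d 0) * algebraMap (NumberField.RingOfIntegers K) K (d 2)) * this
    · refine ⟨n 2 * d 0 * d 1, ?_⟩
      have := hnd 2
      simp only [hs, Submonoid.coe_mul, map_mul]
      simp only [Fin.reduceFinMk]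
      linear_combination (algebraMap (NumberField.RingOfIntegers K) K (d 0) * algebraMap (NumberField.RingOfIntegers K) K (d 1)) * this
  choose a ha using h2
  have h3 : algebraMap (NumberField.RingOfIntegers K) K (N a) = (algebraMap (NumberField.RingOfIntegers K) K s) ^ 3 * N x := by
    rw [N_map, ← N_smul]
    congr 1
    funext j
    exact (ha j).symm
  have h4 : P.valuation K (algebraMap (NumberField.RingOfIntegers K) K (N a)) < 1 := by
    rw [h3, map_mul, map_pow, hvd, one_pow, one_mul]
    exact (g_one_iff P _).1 hN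
  rw [HeightOneSpectrum.valuation_lt_one_iff_mem] at h4
  have h5 : N (fun j => Ideal.Quotient.mk P.asIdeal (a j)) = 0 := by
    rw [← N_map]
    exact Ideal.Quotient.eq_zero_iff_mem.2 h4
  have h6 := aniso_field hP _ h5 j
  have h7 : a j ∈ P.asIdeal := Ideal.Quotient.eq_zero_iff_mem.1 h6
  have h8 : P.valuation K (algebraMap (NumberField.RingOfIntegers K) K (a j)) < 1 :=
    (HeightOneSpectrum.valuation_lt_one_iff_mem (K := K) P (a j)).2 h7
  rw [← ha j, map_mul, hvd, one_mul] at h8
  exact (g_one_iff P _).2 h8

set_option linter.deprecated false in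
/-- a prime above `2` with ramification index and residue degree prime to `3` -/
lemma exists_prime (hK : ¬ 3 ∣ Module.finrank ℚ K) :
    ∃ P : HeightOneSpectrum (NumberField.RingOfIntegers K), ¬ (3 : ℤ) ∣ (ofPrime P).v 2 ∧
      ∀ θ : NumberField.RingOfIntegers K ⧸ P.asIdeal, θ ^ 3 ≠ θ + 1 := by
  have hp0 : Ideal.span {((2 : ℕ) : ℤ)} ≠ ⊥ := by simp
  have hpm : (Ideal.span {((2 : ℕ) : ℤ)}).IsMaximal :=
    Int.ideal_span_isMaximal_of_prime 2
  have hsum := Ideal.sum_ramification_inertia (R := ℤ) (NumberField.RingOfIntegers K) ℚ K hp0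
  obtain ⟨P, hP, hef⟩ : ∃ P ∈ IsDedekindDomain.primesOverFinset (Ideal.span {((2 : ℕ) : ℤ)}) (NumberField.RingOfIntegers K),
      ¬ 3 ∣ Ideal.ramificationIdx' (Ideal.span {((2 : ℕ) : ℤ)}) P *
        Ideal.inertiaDeg' (Ideal.span {((2 : ℕ) : ℤ)}) P := by
    by_contra hcon
    push Not at hcon
    apply hK
    rw [← hsum]
    exact Finset.dvd_sum hcon
  obtain ⟨hP1, hP2⟩ := (IsDedekindDomain.mem_primesOverFinset_iff hp0 (NumberField.RingOfIntegers K)).1 hP
  have hPb : P ≠ ⊥ := by
    intro h
    exact Ideal.ne_bot_of_liesOver_of_ne_bot hp0 P h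
  let v : HeightOneSpectrum (NumberField.RingOfIntegers K) := ⟨P, hP1, hPb⟩
  refine ⟨v, ?_, ?_⟩
  · -- the valuation of 2
    have h2 : ((2 : NumberField.RingOfIntegers K)) ≠ 0 := by norm_num
    have hval : v.valuation K (2 : K) = v.intValuation (2 : NumberField.RingOfIntegers K) := by
      have h0 : algebraMap (NumberField.RingOfIntegers K) K 2 = 2 := map_ofNat _ 2
      rw [← h0]
      exact HeightOneSpectrum.valuation_of_algebraMap (K := K) v (2 : NumberField.RingOfIntegers K)
    obtain ⟨n, hn⟩ : ∃ n : ℕ, v.intValuation (2 : NumberField.RingOfIntegers K) = exp (-(n : ℤ)) :=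
      ⟨_, HeightOneSpectrum.intValuation_if_neg v h2⟩
    have hmap : Ideal.map (algebraMap ℤ (NumberField.RingOfIntegers K)) (Ideal.span {((2 : ℕ) : ℤ)}) =
        Ideal.span {(2 : NumberField.RingOfIntegers K)} := by
      rw [Ideal.map_span, Set.image_singleton]
      simp
    have he : Ideal.ramificationIdx' (Ideal.span {((2 : ℕ) : ℤ)}) P = n := by
      apply Ideal.ramificationIdx'_spec
      · rw [hmap, Ideal.span_singleton_le_iff_mem]
        exact (HeightOneSpectrum.intValuation_le_pow_iff_mem v 2 n).1 hn.le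
      · rw [hmap, Ideal.span_singleton_le_iff_mem]
        intro hmem
        have := (HeightOneSpectrum.intValuation_le_pow_iff_mem v 2 (n + 1)).2 hmem
        rw [hn, exp_le_exp] at this
        push_cast at this
        omega
    have hv2 : (ofPrime v).v 2 = n := by
      show - log (v.valuation K 2) = n
      rw [hval, hn, log_exp]
      ring
    rw [hv2, ← he]
    intro h
    exact hef (Dvd.dvd.mul_right (by exact_mod_cast h) _)
  · -- the residue field
    have hcard : Nat.card (NumberField.RingOfIntegers K ⧸ P) =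
        2 ^ (Ideal.inertiaDeg' (Ideal.span {((2 : ℕ) : ℤ)}) P) := by
      have := Ideal.absNorm_eq_pow_inertiaDeg' P Nat.prime_two
      rwa [Ideal.absNorm_apply, Submodule.cardQuot_apply] at this
    have hf : ¬ 3 ∣ Ideal.inertiaDeg' (Ideal.span {((2 : ℕ) : ℤ)}) P :=
      fun h => hef (Dvd.dvd.mul_left h _)
    have : P.IsMaximal := hP1.isMaximal hPb
    letI : Field (NumberField.RingOfIntegers K ⧸ P) := Ideal.Quotient.field _
    have : Finite (NumberField.RingOfIntegers K ⧸ P) := Nat.finite_of_card_ne_zero (by rw [hcard]; positivity)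
    have h2 : (2 : NumberField.RingOfIntegers K ⧸ P) = 0 := by
      have hmem : (algebraMap ℤ (NumberField.RingOfIntegers K)) ((2 : ℕ) : ℤ) ∈ P := by
        have h1 : ((2 : ℕ) : ℤ) ∈ Ideal.span {((2 : ℕ) : ℤ)} := Ideal.mem_span_singleton_self _
        rw [hP2.over] at h1
        exact h1
      have h3 := Ideal.Quotient.eq_zero_iff_mem.2 hmem
      have e : Ideal.Quotient.mk P (2 : NumberField.RingOfIntegers K) = 2 := map_ofNat _ 2
      have e2 : algebraMap ℤ (NumberField.RingOfIntegers K) ((2 : ℕ) : ℤ) = 2 := by simp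
      rw [e2] at h3
      rw [← e]
      exact h3
    exact no_root h2 hcard hf

/-- the form has no line over a number field of degree prime to three -/
theorem no_line_nf (hK : ¬ 3 ∣ Module.finrank ℚ K)
    (P Q : Fin 3 → Fin 3 → K) (y z w y' z' w' : K)
    (H : ∀ s t : K, M 2 (fun i j => s * P i j + t * Q i j) + G 2 (s * y + t * y')
      (s * z + t * z') (s * w + t * w') = 0)
    (hind : ∀ s t : K, (∀ i j, s * P i j + t * Q i j = 0) → s * y + t * y' = 0 →
      s * z + t * z' = 0 → s * w + t * w' = 0 → s = 0 ∧ t = 0) : False := by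
  obtain ⟨p, h1, h2⟩ := exists_prime hK
  exact no_line_pair (ofPrime p) (aniso_ofPrime p h2) two_ne_zero h1 two_ne_zero P Q y z w y' z' w'
    H hind

end Pool.Agent.Y505.RL
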